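import Mathlib

namespace Pool.Agent.Results.MP_e3bb54_nt.Gap

open Finset Pointwise

section
variable (p : ℕ) [Fact p.Prime]

abbrev V := Bool × ZMod p × ZMod p

/-- Flags `(a, b, x)`: the line `(a, b)` and its point `(x, a x + b)`. -/
def nb : V p → Finset (V p)
  | (true, a, b) => univ.image fun x => (false, x, a * x + b)
  | (false, x, y) => univ.image fun a => (true, a, y - a * x)

def ln (f : ZMod p × ZMod p × ZMod p) : V p := (true, f.1, f.2.1)
def pt (f : ZMod p × ZMod p × ZMod p) : V p := (false, f.2.2, f.1 * f.2.2 + f.2.1)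
def S (f : ZMod p × ZMod p × ZMod p) : Finset (V p) :=
  (nb p (ln p f)).erase (pt p f) ∪ (nb p (pt p f)).erase (ln p f)

noncomputable def π (v : V p) : ℕ := Nat.nth Nat.Prime (Fintype.equivFin (V p) v)

theorem π_prime (v : V p) : (π p v).Prime := Nat.prime_nth_prime _

theorem π_dvd (v : V p) (T : Finset (V p)) : π p v ∣ ∏ w ∈ T, π p w ↔ v ∈ T := by
  refine ⟨fun h => ?_, dvd_prod_of_mem _⟩
  obtain ⟨w, hw, h⟩ := (Prime.dvd_finsetProd_iff (π_prime p v).prime _).1 h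
  have := Nat.nth_injective Nat.infinite_setOf_prime
    ((Nat.prime_dvd_prime_iff_eq (π_prime p v) (π_prime p w)).1 h)
  rwa [(Fintype.equivFin (V p)).injective (Fin.ext this)]

theorem card_nb (v : V p) : #(nb p v) = p := by
  rcases v with ⟨_ | _, a, b⟩ <;>
    rw [nb, card_image_of_injective _ fun x y h => by simpa using congrArg (·.2.1) h] <;> simp

theorem disj (f : ZMod p × ZMod p × ZMod p) (u v : V p) :
    Disjoint ((nb p (ln p f)).erase u) ((nb p (pt p f)).erase v) := by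
  refine disjoint_left.2 fun w h1 h2 => ?_
  have h1 := mem_of_mem_erase h1
  have h2 := mem_of_mem_erase h2
  simp only [nb, ln, pt, mem_image] at h1 h2
  obtain ⟨_, -, rfl⟩ := h1
  obtain ⟨_, -, h⟩ := h2
  simp at h

theorem m1 (f : ZMod p × ZMod p × ZMod p) : pt p f ∈ nb p (ln p f) := by simp [nb, ln, pt]
theorem m2 (f : ZMod p × ZMod p × ZMod p) : ln p f ∈ nb p (pt p f) := by simp [nb, ln, pt]

theorem card_S (f : ZMod p × ZMod p × ZMod p) : #(S p f) = 2 * (p - 1) := by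
  rw [S, card_union_of_disjoint (disj p f _ _), card_erase_of_mem (m1 p f),
    card_erase_of_mem (m2 p f), card_nb, card_nb, two_mul]

noncomputable def B (v : V p) : ℝ := (∏ w ∈ nb p v, π p w : ℕ) / π p v

theorem BB (f : ZMod p × ZMod p × ZMod p) :
    ((∏ w ∈ S p f, π p w : ℕ) : ℝ) = B p (ln p f) * B p (pt p f) := by
  have h : ∀ v, (π p v : ℝ) ≠ 0 := fun v => by exact_mod_cast (π_prime p v).ne_zero
  rw [S, prod_union (disj p f _ _), B, B, ← mul_prod_erase _ _ (m1 p f), ← mul_prod_erase _ _ (m2 p f)]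
  have := h (ln p f)
  have := h (pt p f)
  push_cast; field_simp

theorem mem_S (a b x : ZMod p) (s : Bool) (u v : ZMod p) : (s, u, v) ∈ S p (a, b, x) ↔
    (s = false ∧ u ≠ x ∧ v = a * u + b) ∨ (s = true ∧ u ≠ a ∧ v = a * x + b - u * x) := by
  cases s <;> simp [S, nb, ln, pt] <;> grind

theorem inter (hp : 4 ≤ p) (f g : ZMod p × ZMod p × ZMod p) (T : Finset (V p)) (hT : p - 1 ≤ #T)
    (hf : T ⊆ S p f) (hg : T ⊆ S p g) : f = g := by
  obtain ⟨a, b, x⟩ := f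
  obtain ⟨c, d, y⟩ := g
  have h : ∀ s u v, (s, u, v) ∈ T → _ ∧ _ := fun s u v hw =>
    ⟨(mem_S p a b x s u v).1 (hf hw), (mem_S p c d y s u v).1 (hg hw)⟩
  have key : ∀ r t : ZMod p, r ≠ t → (∀ w ∈ T, w.2.1 ≠ r ∧ w.2.1 ≠ t) →
      ¬ Set.InjOn (fun w : V p => w.2.1) T := fun r t hrt h1 h2 => by
    have := card_le_card_of_injOn (t := {r, t}ᶜ) _ (fun w hw => by simpa using (h1 w hw).symm) h2
    rw [card_compl, card_pair hrt, ZMod.card] at this
    omega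
  by_contra hne
  by_cases h1 : a = c ∧ b = d
  · obtain ⟨rfl, rfl⟩ := h1
    refine key x y (by grind) ?_ ?_
    · rintro ⟨s, u, v⟩ hw; have := h s u v hw; grind
    · rintro ⟨s, u, v⟩ hw ⟨s', u', v'⟩ hw' e
      have := h s u v hw; have := h s' u' v' hw'; grind
  by_cases h2 : x = y ∧ a * x + b = c * y + d
  · obtain ⟨rfl, h2⟩ := h2
    refine key a c (by grind) ?_ ?_
    · rintro ⟨s, u, v⟩ hw; have := h s u v hw; grind
    · rintro ⟨s, u, v⟩ hw ⟨s', u', v'⟩ hw' e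
      have := h s u v hw; have := h s' u' v' hw'; grind
  have : #T ≤ #(univ : Finset Bool) := card_le_card_of_injOn (·.1) (fun _ _ => mem_univ _) (by
    rintro ⟨s, u, v⟩ hw ⟨s', u', v'⟩ hw' e
    have := h s u v hw; have := h s' u' v' hw'; grind)
  simp only [card_univ, Fintype.card_bool] at this
  omega

theorem lower (hp : 4 ≤ p) (C : Finset ℕ)
    (h : ∀ f, ∃ c ∈ C, ∃ d ∈ C, ∏ w ∈ S p f, π p w = c * d) : p ^ 3 ≤ #C := by
  have : ∀ f, ∃ c ∈ C, c ∣ ∏ w ∈ S p f, π p w ∧ p - 1 ≤ #{w | π p w ∣ c} := fun f => by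
    obtain ⟨c, hc, d, hd, e⟩ := h f
    have : #(S p f) ≤ #{w | π p w ∣ c} + #{w | π p w ∣ d} :=
      (card_le_card fun w hw => by
        simpa [e, (π_prime p w).dvd_mul] using (π_dvd p w _).2 hw).trans (card_union_le _ _)
    rw [card_S] at this
    by_cases h : p - 1 ≤ #{w | π p w ∣ c}
    · exact ⟨c, hc, e ▸ dvd_mul_right _ _, h⟩
    · exact ⟨d, hd, e ▸ dvd_mul_left _ _, by omega⟩
  choose c h1 h2 h3 using this
  have := card_le_card_of_injOn (s := univ) (t := C) c (fun f _ => h1 f) fun f _ g _ e =>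
    inter p hp f g _ (h3 f) (fun w hw => (π_dvd p w _).1 ((mem_filter.1 hw).2.trans (h2 f)))
      fun w hw => (π_dvd p w _).1 ((mem_filter.1 hw).2.trans (e ▸ h2 g))
  simpa [pow_succ, mul_assoc] using this

end

theorem result : ∃ ε : ℝ, 0 < ε ∧ ∃ n₀ : ℕ, ∀ n > n₀, ∃ B : Finset ℝ, (∀ b ∈ B, 0 < b) ∧ #B = n ∧
    ∃ A : Finset ℕ, (∀ a ∈ A, 0 < a ∧ ∃ x ∈ B, ∃ y ∈ B, (a : ℝ) = x * y) ∧
      ∀ C : Finset ℕ, (∀ c ∈ C, 0 < c) → (#C : ℝ) < (n : ℝ) ^ (1 + ε) →
        ¬ ∀ a ∈ A, ∃ c ∈ C, ∃ d ∈ C, a = c * d := by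
  classical
  refine ⟨1 / 4, by norm_num, 8 * 1000 ^ 2, fun n hn => ?_⟩
  have hk : 1000 ≤ Nat.sqrt (n / 8) := Nat.le_sqrt'.2 (by omega)
  obtain ⟨p, hp, h1, h2⟩ := Nat.exists_prime_lt_and_le_two_mul (Nat.sqrt (n / 8)) (by omega)
  have h3 := Nat.sqrt_le' (n / 8)
  have h4 : n / 8 < (Nat.sqrt (n / 8) + 1) ^ 2 := Nat.lt_succ_sqrt' (n / 8)
  haveI := Fact.mk hp
  have h5 : #(univ.image (B p)) ≤ n :=
    card_image_le.trans (by simp; have : p ^ 2 ≤ 4 * Nat.sqrt (n / 8) ^ 2 := by nlinarith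
                            nlinarith [Nat.div_mul_le_self n 8])
  have hB : ∀ v, 0 < B p v := fun v => div_pos (Nat.cast_pos.2 (prod_pos fun w _ => (π_prime p w).pos))
    (Nat.cast_pos.2 (π_prime p v).pos)
  obtain ⟨D, hD1, hD2, hD3⟩ := (Set.Ioi_infinite (0 : ℝ)).exists_superset_ncard_eq
    (s := ↑(univ.image (B p))) (fun x hx => by obtain ⟨v, -, rfl⟩ := mem_image.1 hx; exact hB v)
    (finite_toSet _) (k := n) (by rwa [Set.ncard_coe_finset])
  have hD : D.Finite := Set.finite_of_ncard_pos (by omega)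
  refine ⟨hD.toFinset, fun b hb => hD2 (by simpa using hb), by rwa [← Set.ncard_eq_toFinset_card _ hD],
    univ.image fun f => ∏ w ∈ S p f, π p w, fun a ha => ?_, fun C _ hC h => ?_⟩
  · obtain ⟨f, -, rfl⟩ := mem_image.1 ha
    exact ⟨prod_pos fun w _ => (π_prime p w).pos, _, hD.mem_toFinset.2 (hD1 (by simp)), _,
      hD.mem_toFinset.2 (hD1 (by simp)), BB p f⟩
  · have a1 := lower p (by omega) C fun f => h _ (mem_image_of_mem _ (mem_univ f))
    have a2 : n ^ 5 ≤ (p ^ 3) ^ 4 := by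
      have : n ≤ 8 * p ^ 2 := by
        have : (Nat.sqrt (n / 8) + 1) ^ 2 ≤ p ^ 2 := Nat.pow_le_pow_left h1 2
        omega
      calc n ^ 5 ≤ (8 * p ^ 2) ^ 5 := Nat.pow_le_pow_left this 5
        _ = 8 ^ 5 * p ^ 10 := by ring
        _ ≤ p ^ 2 * p ^ 10 := Nat.mul_le_mul_right _ (by nlinarith)
        _ = _ := by ring
    have a3 : ((n : ℝ) ^ (1 + 1 / 4 : ℝ)) ^ 4 = (n : ℝ) ^ 5 := by
      rw [← Real.rpow_natCast, ← Real.rpow_mul (by positivity), ← Real.rpow_natCast]; norm_num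
    have a4 : (#C : ℝ) ^ 4 < (n : ℝ) ^ 5 := a3 ▸ pow_lt_pow_left₀ hC (by positivity) (by norm_num)
    have a5 : #C ^ 4 < n ^ 5 := by exact_mod_cast a4
    exact absurd (a2.trans (Nat.pow_le_pow_left a1 4)) (not_le.2 a5)

end Pool.Agent.Results.MP_e3bb54_nt.Gap
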